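import Mathlib
import Pool.Agent.Q115.CC.Field

/-!
# p-parity over the number fields whose complex conjugations commute

`k` is a totally real number field, `E` an elliptic curve over `k` and `F` a finite Galois extension
of `k`. Suppose that the complex conjugations in `Gal(F/k)` commute with each other. If the
`p`-parity conjecture is true for `E` and its quadratic twists over the totally real intermediate
fields of `F/k`, then it is true for `E` and its quadratic twists over all intermediate fields.

Nothing is assumed on the multiplicities `a` and the root numbers `w` but the parity formulas over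
the totally real intermediate fields.
-/

set_option autoImplicit false

namespace Pool.Agent.Results.MP_ddf76b_nt.CommutingConjugations

open Pool.Agent.H541R3.ART NumberField

/-- `σ` is the complex conjugation of some embedding of `F` into `ℂ`. -/
def IsComplexConjugation {k F : Type} [Field k] [Field F] [Algebra k F] (σ : Gal(F/k)) : Prop :=
  ∃ φ : F →+* ℂ, ∀ x : F, φ (σ x) = star (φ x)

/-- For each irreducible complex character `χ` of `G`, `mult χ` is the multiplicity of the character
`ψ : V → {1, -1}` in the restriction of `χ` to `V`. -/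
def IsMult {G : Type} [Group G] (V : Subgroup G) (ψ : V →* ℤˣ) (mult : (G → ℂ) → ℕ) : Prop :=
  ∀ χ ∈ Irr G, ∑ᶠ v : V, χ v * (((ψ v : ℤˣ) : ℤ) : ℂ) = (mult χ : ℂ) * (Nat.card V : ℂ)

/-- The formula `w(E/L, ψ) = (-1) ^ rk_p(E/L, ψ)` for the intermediate field `L` and the quadratic
character `ψ` of `Gal(F/L)`. Here `a χ` stands for the multiplicity of `χ` in the dual Selmer space
`X_p(E/F) ⊗ ℂ` and `w χ` for the root number of the twist of `E` by `χ`. The left hand side is the
root number of the quadratic twist of `E` by `ψ` over `L` (Artin formalism), and the exponent on the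
right hand side is the dimension of the `ψ`-part of `X_p(E/F) ⊗ ℂ`, that is, the `p`-infinity Selmer
rank of that twist over `L`. For `ψ = 1` this is the `p`-parity conjecture for `E` over `L`. -/
def ParityOver {k F : Type} [Field k] [Field F] [Algebra k F] [FiniteDimensional k F]
    (a : (Gal(F/k) → ℂ) → ℕ) (w : (Gal(F/k) → ℂ) → ℂ) (L : IntermediateField k F)
    (ψ : L.fixingSubgroup →* ℤˣ) : Prop :=
  ∀ mult : (Gal(F/k) → ℂ) → ℕ, IsMult L.fixingSubgroup ψ mult →
    ∏ χ ∈ irrF Gal(F/k), w χ ^ mult χ = (-1) ^ ∑ χ ∈ irrF Gal(F/k), a χ * mult χ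

theorem result {k F : Type} [Field k] [NumberField k] [IsTotallyReal k] [Field F] [Algebra k F]
    [FiniteDimensional k F] [IsGalois k F]
    (hcomm : ∀ σ τ : Gal(F/k), IsComplexConjugation σ → IsComplexConjugation τ → σ * τ = τ * σ)
    (a : (Gal(F/k) → ℂ) → ℕ) (w : (Gal(F/k) → ℂ) → ℂ)
    (known : ∀ L : IntermediateField k F, IsTotallyReal L →
      ∀ ψ : L.fixingSubgroup →* ℤˣ, ParityOver a w L ψ)
    (K : IntermediateField k F) (φ : K.fixingSubgroup →* ℤˣ) :
    ParityOver a w K φ := by
  refine Q115.CC.parity_field (fun σ τ hσ hτ => hcomm σ τ ?_ ?_) a w known K φ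
  · obtain ⟨f, hf⟩ := hσ
    exact ⟨f, hf.eq⟩
  · obtain ⟨f, hf⟩ := hτ
    exact ⟨f, hf.eq⟩

end Pool.Agent.Results.MP_ddf76b_nt.CommutingConjugations
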