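import Mathlib
import Pool.Agent.Q112.PP.Main

/-!
# p-parity over odd extensions of Galois 2-extensions

`E` is an elliptic curve over `ℚ` (or over a number field `k` over which the `p`-parity conjecture
is known for the quadratic twists of `E`), `F` a finite Galois extension of `ℚ` with group `G`, and
`K` the fixed field of a subgroup `H` of `G`. Suppose that `G` has a normal subgroup `N` of odd
order such that `G / N` is a 2-group and that `H` has odd order; that is, `K` is an extension of odd
degree of a Galois extension of `ℚ` of 2-power degree, with Galois closure of odd degree over it.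
Then the `p`-parity conjecture holds for `E` over `K`.
-/

set_option autoImplicit false

namespace Pool.Agent.Results.MP_ddf76b_nt.OddOverTwoExtensions

open Pool.Agent.H541R3.ART

variable {G : Type} [Group G] [Finite G]

/-- The dual of a character. -/
def dual (χ : G → ℂ) : G → ℂ := fun g => χ g⁻¹

/-- The character given by a homomorphism to the signs. -/
def ofSign (ψ : G →* ℤˣ) : G → ℂ := fun g => (((ψ g : ℤˣ) : ℤ) : ℂ)

/-- The published theorems on the multiplicities `a χ` of the irreducible characters `χ` of `G` in
the dual Selmer space `X_p(E/F) ⊗ ℂ` and on the root numbers `w χ` of the twists of `E` by `χ`. -/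
structure KnownTheorems (a : (G → ℂ) → ℕ) (w : (G → ℂ) → ℂ) : Prop where
  /-- the dual Selmer space is self-dual (T. and V. Dokchitser) -/
  self_dual : ∀ χ ∈ Irr G, a (dual χ) = a χ
  /-- the root numbers of the twists by `χ` and by its dual are inverse to each other (the
  determinant of `E` is the cyclotomic character) -/
  root_number : ∀ χ ∈ Irr G, w χ * w (dual χ) = 1
  /-- the `p`-parity theorem for the quadratic twists of `E` over `ℚ` (Birch, Stephens, Greenberg,
  Guo, Monsky, Nekovář, Kim, T. and V. Dokchitser) -/
  parity : ∀ ψ : G →* ℤˣ, w (ofSign ψ) = (-1) ^ a (ofSign ψ)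

/-- `mult χ` is the multiplicity of the trivial character in the restriction of `χ` to `H`. The left
hand side is the root number of `E` over `K` (Artin formalism), and the sum in the exponent is the
dimension of the space of `H`-invariants of `X_p(E/F) ⊗ ℂ`, that is, `rk_p E/K`. -/
theorem result (N : Subgroup G) [N.Normal] (hN : Odd (Nat.card N)) (h2 : IsPGroup 2 (G ⧸ N))
    (H : Subgroup G) (hH : Odd (Nat.card H)) (mult : (G → ℂ) → ℕ)
    (hmult : ∀ χ ∈ Irr G, ∑ᶠ h : H, χ h = mult χ * Nat.card H)
    {a : (G → ℂ) → ℕ} {w : (G → ℂ) → ℂ} (known : KnownTheorems a w) :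
    ∏ χ ∈ irrF G, w χ ^ mult χ = (-1) ^ ∑ χ ∈ irrF G, a χ * mult χ :=
  Q112PP.parity_formula N hN h2 H hH mult hmult a known.self_dual w known.root_number known.parity

end Pool.Agent.Results.MP_ddf76b_nt.OddOverTwoExtensions
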