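import Pool.Agent.Q317.LD.Gen

/-!
# The defect of the `p`-parity conjecture and pure extensions of odd degree

`Ω` is an algebraic closure of `ℚ`, number fields are the finite extensions of `ℚ` in `Ω`. For an
elliptic curve `E` over a number field `k` and a prime `p` let
`s (K) = (-1) ^ rk_p (E / K) * w (E / K)` for the number fields `K ⊇ k`. The `p`-parity conjecture
for `E / K` is `s (K) = 1`. The function `s` respects the relations between permutation characters
(Artin formalism for Selmer ranks and for root numbers) and does not change in Galois extensions of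
odd degree (duality). We express `s (k)` by the values of `s` at pure extensions of degrees `l` and
`l ^ 2` of `k`, for every sufficiently large prime `l`.
-/

set_option autoImplicit false

namespace Pool.Agent.Results.MP_ddf76b_nt.PureFields

open scoped Classical
open IntermediateField Polynomial Pool.Agent.Q317.ST Pool.Agent.Q317.ST.Perm Pool.Agent.Q317.LD

attribute [-instance] DivisionRing.toRatAlgebra

variable {Ω : Type} [Field Ω] [Algebra ℚ Ω]

/-- the field `F(x)` -/
def ext (F : IntermediateField ℚ Ω) (x : Ω) : IntermediateField ℚ Ω := F ⊔ ℚ⟮x⟯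

/-- `s`, a function on the finite extensions `K` of `k`, respects the relations between permutation
characters: if `∑ n_i π_i = 0` on the absolute Galois group of `k`, where `π_i (σ)` is the number
of the `k`-embeddings of `K_i` fixed by `σ`, then `∏ s (K_i) ^ n_i = 1`. -/
def RespectsRelations (k : IntermediateField ℚ Ω) (s : IntermediateField ℚ Ω → ℤˣ) : Prop :=
  ∀ (ι : Type) [Fintype ι] (n : ι → ℤ) (K : ι → IntermediateField ℚ Ω),
    (∀ i, FiniteDimensional ℚ (K i) ∧ k ≤ K i) →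
    (∀ σ ∈ k.fixingSubgroup, ∑ i, n i * (fix k (K i) σ : ℤ) = 0) → ∏ i, s (K i) ^ n i = 1

/-- `s (F(x)) = s (F)` if `F ⊇ k` contains the `l`-th roots of unity and `x ^ l ∈ F`, for all odd
primes `l`: invariance in cyclic Kummer extensions of odd prime degree. -/
def OddInvariant (k : IntermediateField ℚ Ω) (s : IntermediateField ℚ Ω → ℤˣ) : Prop :=
  ∀ F : IntermediateField ℚ Ω, FiniteDimensional ℚ F → k ≤ F → ∀ l : ℕ, l.Prime → l ≠ 2 →
    ∀ z x : Ω, IsPrimitiveRoot z l → z ∈ F → x ^ l ∈ F → s (ext F x) = s F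

theorem ext_one (F : IntermediateField ℚ Ω) : ext F 1 = F := by
  unfold ext
  rw [sup_eq_left, adjoin_simple_le_iff]
  exact one_mem F

theorem fld_eq (F : IntermediateField ℚ Ω) (x y : Ω) : fld F x y = ext (ext F x) y := rfl

theorem fld_one (F : IntermediateField ℚ Ω) (x : Ω) : fld F x 1 = ext F x := by
  rw [fld_eq, ext_one]

theorem relfinrank_root {F : IntermediateField ℚ Ω} {l : ℕ} (hl : l.Prime) {x c : Ω} (hc : c ∈ F)
    (hx : x ^ l = c) (hno : ∀ y ∈ F, y ^ l ≠ c) : relfinrank F (ext F x) = l := by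
  unfold ext
  have h1 : (F⟮x⟯).restrictScalars ℚ = F ⊔ ℚ⟮x⟯ := restrictScalars_adjoin_eq_sup ..
  rw [relfinrank_eq_finrank_of_le le_sup_left]
  have h2 : extendScalars (le_sup_left : F ≤ F ⊔ ℚ⟮x⟯) = F⟮x⟯ := by
    apply restrictScalars_injective ℚ
    rw [h1]
    rfl
  rw [h2]
  have hirr : Irreducible (X ^ l - C (⟨c, hc⟩ : F)) := by
    refine X_pow_sub_C_irreducible_of_prime hl fun y hy => ?_
    exact hno y y.2 (by rw [← SubmonoidClass.coe_pow, hy])
  have hmin : minpoly F x = X ^ l - C (⟨c, hc⟩ : F) := by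
    symm
    refine minpoly.eq_of_irreducible_of_monic hirr ?_ (monic_X_pow_sub_C _ hl.ne_zero)
    rw [map_sub, map_pow, aeval_X, aeval_C, hx]
    exact sub_self _
  have hint : IsIntegral F x := by
    refine ⟨X ^ l - C (⟨c, hc⟩ : F), monic_X_pow_sub_C _ hl.ne_zero, ?_⟩
    rw [← aeval_def, map_sub, map_pow, aeval_X, aeval_C, hx]
    exact sub_self _
  rw [adjoin.finrank hint, hmin, natDegree_X_pow_sub_C]

theorem units_zpow_even (u : ℤˣ) {m : ℤ} (hm : Even m) : u ^ m = 1 := by
  obtain ⟨c, rfl⟩ := hm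
  rw [zpow_add]
  exact Int.units_mul_self _

theorem units_inv (u : ℤˣ) : u⁻¹ = u := Int.units_inv_eq_self u

section
variable [hΩ : IsAlgClosure ℚ Ω] (k : IntermediateField ℚ Ω) [FiniteDimensional ℚ k] {l : ℕ}
    [hl : Fact l.Prime] (hd : Module.finrank ℚ k < l) (hl2 : l ≠ 2) {α β : Ω}
    (hα : α ^ l = 2) (hβ : β ^ l = 3)

include hd hl2 hα hβ

/-- the formula, with a product over `ZMod l` -/
theorem formula {s : IntermediateField ℚ Ω → ℤˣ} (hs : RespectsRelations k s)
    (ho : OddInvariant k s) :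
    s k = (∏ t : ZMod l, s (ext k (α ^ 1 * β ^ t.val))) * s (ext k (α ^ 0 * β ^ 1)) *
      s (ext (ext k α) β) := by
  have : IsAlgClosed Ω := IsAlgClosure.isAlgClosed ℚ
  have hc0 : CharZero Ω := charZero_of_injective_algebraMap (algebraMap ℚ Ω).injective
  have hlne : NeZero (l : Ω) := ⟨Nat.cast_ne_zero.2 hl.out.ne_zero⟩
  obtain ⟨z, hz⟩ := HasEnoughRootsOfUnity.exists_primitiveRoot Ω l
  obtain ⟨e, he⟩ := relation k hd hz hα hβ
  have hrel := hs (ZMod l ⊕ Fin 6)
    (Sum.elim (fun _ => 1) ![1, -1, -(e : ℤ), -((l : ℤ) - 1), (e : ℤ), -1])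
    (Sum.elim (fun t => fld k (α ^ 1 * β ^ t.val) 1)
      ![fld k (α ^ 0 * β ^ 1) 1, fld k α β, fld k z 1, fld k (α ^ 1 * β ^ 0) 1, fld k z α, k])
    (by
      rintro (t | i)
      · exact ⟨finite_fld _ _ _, le_fld _ _ _⟩
      · fin_cases i
        · exact ⟨finite_fld _ _ _, le_fld _ _ _⟩
        · exact ⟨finite_fld _ _ _, le_fld _ _ _⟩
        · exact ⟨finite_fld _ _ _, le_fld _ _ _⟩
        · exact ⟨finite_fld _ _ _, le_fld _ _ _⟩
        · exact ⟨finite_fld _ _ _, le_fld _ _ _⟩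
        · exact ⟨by assumption, le_rfl⟩)
    (by
      intro σ hσ
      have h4 := he σ hσ
      rw [Fintype.sum_sum_type, Fin.sum_univ_six]
      simp only [Sum.elim_inl, Sum.elim_inr, Matrix.cons_val, one_mul]
      linear_combination h4)
  rw [Fintype.prod_sum_type, Fin.prod_univ_six] at hrel
  simp only [Sum.elim_inl, Sum.elim_inr, Matrix.cons_val, zpow_one, zpow_neg, units_inv] at hrel
  have hodd : Odd l := hl.out.odd_of_ne_two hl2
  have hev : Even ((l : ℤ) - 1) := by
    obtain ⟨c, hc⟩ := hodd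
    exact ⟨c, by rw [hc]; push_cast; ring⟩
  have hzα : s (fld k z α) = s (fld k z 1) := by
    rw [fld_one, fld_eq]
    refine ho (ext k z) ?_ le_sup_left l hl.out hl2 z α hz ?_ ?_
    · have := finite_fld k z 1
      rwa [fld_one] at this
    · exact (le_sup_right : ℚ⟮z⟯ ≤ ext k z) (mem_adjoin_simple_self ℚ z)
    · rw [hα]
      exact ofNat_mem _ 2
  rw [hzα, units_zpow_even _ hev, mul_one] at hrel
  simp only [fld_one] at hrel
  rw [fld_eq] at hrel
  have h5 : ∀ a b c d u : ℤˣ, a * (b * c * d * d * u) = 1 → u = a * b * c := by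
    decide
  have h6 := h5 _ _ _ _ _ hrel
  exact h6

end

theorem prod_zmod {l : ℕ} [Fact l.Prime] (g : ℕ → ℤˣ) :
    ∏ t : ZMod l, g t.val = ∏ t ∈ Finset.range l, g t := by
  refine Finset.prod_bij (fun t _ => t.val) ?_ ?_ ?_ ?_
  · intro t _
    exact Finset.mem_range.2 (ZMod.val_lt t)
  · intro t _ t' _ h
    exact ZMod.val_injective l h
  · intro t ht
    exact ⟨(t : ZMod l), Finset.mem_univ _, ZMod.val_natCast_of_lt (Finset.mem_range.1 ht)⟩
  · intro t _
    rfl

section
variable [hΩ : IsAlgClosure ℚ Ω] (k : IntermediateField ℚ Ω) [FiniteDimensional ℚ k] {l : ℕ}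
    [hl : Fact l.Prime] (hd : Module.finrank ℚ k < l) {α β : Ω}
    (hα : α ^ l = 2) (hβ : β ^ l = 3)

include hd hα hβ

theorem degree_c {a b : ℕ} (ha : a < l) (hb : b < l) (hab : a ≠ 0 ∨ b ≠ 0) :
    relfinrank k (ext k (α ^ a * β ^ b)) = l := by
  have hpow : (α ^ a * β ^ b) ^ l = 2 ^ a * 3 ^ b := by
    rw [mul_pow, ← pow_mul, ← pow_mul, mul_comm a, mul_comm b, pow_mul, pow_mul, hα, hβ]
  refine relfinrank_root hl.out (mul_mem (pow_mem (ofNat_mem k 2) a) (pow_mem (ofNat_mem k 3) b))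
    hpow ?_
  intro y hy h
  refine not_pow hl.out hd ha hb hab (⟨y, hy⟩ : k) (Subtype.ext ?_)
  exact h

theorem degree_ab : relfinrank k (ext (ext k α) β) = l * l := by
  have : IsAlgClosed Ω := IsAlgClosure.isAlgClosed ℚ
  have hc0 : CharZero Ω := charZero_of_injective_algebraMap (algebraMap ℚ Ω).injective
  have hlne : NeZero (l : Ω) := ⟨Nat.cast_ne_zero.2 hl.out.ne_zero⟩
  obtain ⟨z, hz⟩ := HasEnoughRootsOfUnity.exists_primitiveRoot Ω l
  have h0 := relfinrank_mul_relfinrank (A := k) (B := ext k α) (C := ext (ext k α) β)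
    le_sup_left le_sup_left
  rw [← h0]
  have h1 : relfinrank k (ext k α) = l := by
    have := degree_c k hd hα hβ (a := 1) (b := 0) hl.out.one_lt hl.out.pos (Or.inl one_ne_zero)
    simpa using this
  rw [h1, relfinrank_root hl.out (ofNat_mem (ext k α) 3) hβ]
  intro y hy h
  have h3 : (3 : Ω) ≠ 0 := three_ne_zero
  obtain ⟨j, hj⟩ := exists_ex hz h3 hβ h
  obtain ⟨u, hu, h7, h8, h9⟩ := kum k hd hz hα hβ 0 1
  rw [ex_zero, one_mul] at h8
  have hfix : ext k α ≤ fixedField (Subgroup.zpowers u) := by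
    refine sup_le ?_ ?_
    · intro w hw
      rw [mem_fixedField_iff]
      rintro _ ⟨m, rfl⟩
      have hum : u ^ m ∈ GG k := zpow_mem hu m
      exact hum ⟨w, hw⟩
    · rw [adjoin_simple_le_iff, mem_fixedField_iff]
      intro v hv
      have h10 : Subgroup.zpowers u ≤ MulAction.stabilizer (Ω ≃ₐ[ℚ] Ω) α := by
        rw [Subgroup.zpowers_le]
        exact h8
      exact h10 hv
  have hyu : u y = y := by
    have := hfix hy
    rw [mem_fixedField_iff] at this
    exact this u (Subgroup.mem_zpowers u)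
  have hexj : u (ex z j) = ex z j := by
    unfold ex
    rw [map_pow, h7]
  rw [hj, map_mul, hexj, h9] at hyu
  have hj0 : ex z j * β ≠ 0 := by
    intro h0
    rw [← hj] at h0
    rw [h0, zero_pow hl.out.ne_zero] at h
    exact h3 h.symm
  have h11 : ex z (1 : ZMod l) * (ex z j * β) = 1 * (ex z j * β) := by
    rw [one_mul]
    linear_combination hyu
  have h12 := mul_right_cancel₀ hj0 h11
  rw [← ex_zero (l := l) z] at h12
  exact one_ne_zero (ex_inj hz h12)

end

theorem result (Ω : Type) [Field Ω] [Algebra ℚ Ω] [IsAlgClosure ℚ Ω] (k : IntermediateField ℚ Ω)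
    [FiniteDimensional ℚ k] (s : IntermediateField ℚ Ω → ℤˣ) (hs : RespectsRelations k s)
    (ho : OddInvariant k s) :
    (∀ l : ℕ, l.Prime → l ≠ 2 → Module.finrank ℚ k < l → ∀ α β : Ω, α ^ l = 2 → β ^ l = 3 →
      s k = (∏ t ∈ Finset.range l, s (ext k (α * β ^ t))) * s (ext k β) *
        s (ext (ext k α) β)) ∧
    (∀ N n : ℕ, (∀ F, Large k N n F → Odd (relfinrank k F) → s F = 1) → s k = 1) := by
  have formula' : ∀ l : ℕ, l.Prime → l ≠ 2 → Module.finrank ℚ k < l → ∀ α β : Ω, α ^ l = 2 →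
      β ^ l = 3 → s k = (∏ t ∈ Finset.range l, s (ext k (α * β ^ t))) * s (ext k β) *
        s (ext (ext k α) β) := by
    intro l hl hl2 hd α β hα hβ
    have : Fact l.Prime := ⟨hl⟩
    have h1 := formula k hd hl2 hα hβ hs ho
    simp only [pow_one, pow_zero, one_mul] at h1
    rw [h1, prod_zmod (fun t => s (ext k (α * β ^ t)))]
  refine ⟨formula', ?_⟩
  intro N n h
  have : IsAlgClosed Ω := IsAlgClosure.isAlgClosed ℚ
  have hc0 : CharZero Ω := charZero_of_injective_algebraMap (algebraMap ℚ Ω).injective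
  obtain ⟨l, hlb, hl⟩ := Nat.exists_infinite_primes (N + n + Module.finrank ℚ k + 3)
  have hlf : Fact l.Prime := ⟨hl⟩
  have hd : Module.finrank ℚ k < l := by omega
  have hodd : Odd l := hl.odd_of_ne_two (by omega)
  obtain ⟨α, hα⟩ := IsAlgClosed.exists_pow_nat_eq (2 : Ω) hl.pos
  obtain ⟨β, hβ⟩ := IsAlgClosed.exists_pow_nat_eq (3 : Ω) hl.pos
  have h2 : (2 : Ω) ≠ 0 := two_ne_zero
  have h3 : (3 : Ω) ≠ 0 := three_ne_zero
  have hRr : ∀ w : ℝ, w ^ l = 1 → w = 1 := fun w hw => real_root hl (by omega) hw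
  have hRp : ∀ (p : ℕ) [Fact p.Prime], p ≤ n → ∀ w : ℚ_[p], w ^ l = 1 → w = 1 :=
    fun p _ hp w hw => padic_root hl (by omega) hw
  have hpow : ∀ a b : ℕ, (α ^ a * β ^ b) ^ l = 2 ^ a * 3 ^ b := fun a b => by
    rw [mul_pow, ← pow_mul, ← pow_mul, mul_comm a, mul_comm b, pow_mul, pow_mul, hα, hβ]
  have hmk : ∀ a b : ℕ, (2 : Ω) ^ a * 3 ^ b ∈ k := fun a b =>
    mul_mem (pow_mem (ofNat_mem k 2) a) (pow_mem (ofNat_mem k 3) b)
  have hne : ∀ a b : ℕ, α ^ a * β ^ b ≠ 0 := fun a b h => by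
    have h4 := hpow a b
    rw [h, zero_pow hl.ne_zero] at h4
    exact mul_ne_zero (pow_ne_zero a h2) (pow_ne_zero b h3) h4.symm
  have hα0 : α ≠ 0 := by
    have := hne 1 0
    simpa using this
  have hβ0 : β ≠ 0 := by
    have := hne 0 1
    simpa using this
  have g1 : ∀ a b : ℕ, a < l → b < l → (a ≠ 0 ∨ b ≠ 0) → s (ext k (α ^ a * β ^ b)) = 1 := by
    intro a b ha hb hab
    have hfin := finite_fld k (α ^ a * β ^ b) 1
    refine h _ ?_ ?_
    · rw [← fld_one]
      refine ⟨hfin, le_fld _ _ _, ?_, ?_, ?_⟩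
      · have := finrank_of_root hl ha hb hab (hpow a b) (fst_mem k _ 1)
        omega
      · exact atMostOne_root hl.ne_zero hRr (by rw [hpow]; exact hmk a b)
          (by rw [one_pow]; exact one_mem k) (hne a b) one_ne_zero
      · intro p _ hp
        exact atMostOne_root hl.ne_zero (hRp p hp) (by rw [hpow]; exact hmk a b)
          (by rw [one_pow]; exact one_mem k) (hne a b) one_ne_zero
    · rw [degree_c k hd hα hβ ha hb hab]
      exact hodd
  have g2 : s (ext (ext k α) β) = 1 := by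
    have hfin := finite_fld k α β
    refine h _ ?_ ?_
    · rw [← fld_eq]
      refine ⟨hfin, le_fld _ _ _, ?_, ?_, ?_⟩
      · have := finrank_of_root (a := 1) (b := 0) hl hl.one_lt hl.pos (Or.inl one_ne_zero)
          (by rw [hα]; norm_num) (fst_mem k α β)
        omega
      · exact atMostOne_root hl.ne_zero hRr (by rw [hα]; exact ofNat_mem k 2)
          (by rw [hβ]; exact ofNat_mem k 3) hα0 hβ0
      · intro p _ hp
        exact atMostOne_root hl.ne_zero (hRp p hp) (by rw [hα]; exact ofNat_mem k 2)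
          (by rw [hβ]; exact ofNat_mem k 3) hα0 hβ0
    · rw [degree_ab k hd hα hβ]
      exact hodd.mul hodd
  rw [formula' l hl (by omega) hd α β hα hβ, g2, mul_one]
  have g3 : s (ext k β) = 1 := by
    have := g1 0 1 hl.pos hl.one_lt (Or.inr one_ne_zero)
    simpa using this
  rw [g3, mul_one]
  refine Finset.prod_eq_one fun t ht => ?_
  have := g1 1 t hl.one_lt (Finset.mem_range.1 ht) (Or.inl one_ne_zero)
  simpa using this

end Pool.Agent.Results.MP_ddf76b_nt.PureFields
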